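import Pool.Agent.Y735.R2.Bh

/-!
The classes of the sequences of elements of varying function fields, of height bounded in terms of
a sequence of numbers.
-/

set_option autoImplicit false

open FF Pool.Agent.W603.LV Pool.Agent.W603.PV Pool.Agent.W602.RG Pool.Agent.TH145.GH
open Pool.Agent.TH145
open Filter

namespace Pool.Agent.N752.QS

variable {κ Ω : Type} [Field κ] [Field Ω] [IsAlgClosed κ] [CharZero κ]
  {M : ℕ → Type} [∀ m, Field (M m)] [∀ m, Algebra κ (M m)] [∀ m, IsFF κ (M m)]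

/-- The classes of the sequences of height `O(s)`. -/
noncomputable def BS (κ : Type) {Ω : Type} [Field κ] [Field Ω] [IsAlgClosed κ] [CharZero κ]
    {M : ℕ → Type} [∀ m, Field (M m)] [∀ m, Algebra κ (M m)] [∀ m, IsFF κ (M m)]
    (σ : ∀ m, M m →+* Ω) (s : ℕ → ℤ) : Subfield (Om Ω) where
  carrier := {z | ∃ (w : ∀ m, M m) (H : ℤ), (∀ m, hgt κ (w m) ≤ H * s m) ∧
    z = Om.mk fun m => σ m (w m)}
  mul_mem' := by
    rintro _ _ ⟨w, H, hw, rfl⟩ ⟨w', H', hw', rfl⟩
    refine ⟨fun m => w m * w' m, H + H', fun m => (MW.hgt_mul_le _ _).trans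
      ((add_le_add (hw m) (hw' m)).trans_eq (by ring)), ?_⟩
    rw [Om.mk_mul]
    congr 1
    funext m
    rw [map_mul]
  one_mem' := ⟨fun _ => 1, 0, fun m => by
    have := MG.hgt_const (k := κ) (L := M m) 1
    rw [map_one] at this
    rw [zero_mul]
    exact this.le, by
    rw [← Om.mk_one]
    congr 1
    funext m
    rw [map_one]⟩
  add_mem' := by
    rintro _ _ ⟨w, H, hw, rfl⟩ ⟨w', H', hw', rfl⟩
    refine ⟨fun m => w m + w' m, H + H', fun m => (MW.hgt_add_le _ _).trans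
      ((add_le_add (hw m) (hw' m)).trans_eq (by ring)), ?_⟩
    rw [Om.mk_add]
    congr 1
    funext m
    rw [map_add]
  zero_mem' := ⟨fun _ => 0, 0, fun m => by
    have := MG.hgt_const (k := κ) (L := M m) 0
    rw [map_zero] at this
    rw [zero_mul]
    exact this.le, by
    rw [← Om.mk_zero]
    congr 1
    funext m
    rw [map_zero]⟩
  neg_mem' := by
    rintro _ ⟨w, H, hw, rfl⟩
    refine ⟨fun m => -w m, H, fun m => by rw [MW.hgt_neg]; exact hw m, ?_⟩
    change Om.mk (fun m => - σ m (w m)) = _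
    congr 1
    funext m
    rw [map_neg]
  inv_mem' := by
    rintro _ ⟨w, H, hw, rfl⟩
    refine ⟨fun m => (w m)⁻¹, H, fun m => by rw [hgt_inv]; exact hw m, ?_⟩
    change Om.mk (fun m => (σ m (w m))⁻¹) = _
    congr 1
    funext m
    rw [map_inv₀]

variable {σ : ∀ m, M m →+* Ω} {s : ℕ → ℤ}

theorem mem_BS {w : ∀ m, M m} {H : ℤ} (h : ∀ m, hgt κ (w m) ≤ H * s m) :
    Om.mk (fun m => σ m (w m)) ∈ BS κ σ s := ⟨w, H, h, rfl⟩

/-- Membership is a matter of almost all indices. -/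
theorem mem_BS_of_eventually (hs : ∀ m, 0 ≤ s m) {w : ∀ m, M m} {H : ℤ}
    (h : ∀ᶠ m in (hyperfilter ℕ : Filter ℕ), hgt κ (w m) ≤ H * s m) :
    Om.mk (fun m => σ m (w m)) ∈ BS κ σ s := by
  classical
  obtain ⟨w', hw'⟩ : ∃ w' : ∀ m, M m, ∀ m, w' m = if hgt κ (w m) ≤ H * s m then w m else 0 :=
    ⟨fun m => if hgt κ (w m) ≤ H * s m then w m else 0, fun _ => rfl⟩
  have h1 : Om.mk (fun m => σ m (w m)) = Om.mk fun m => σ m (w' m) := by
    rw [Om.mk_eq]
    filter_upwards [h] with m hm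
    rw [hw', if_pos hm]
  rw [h1]
  refine mem_BS (H := max H 0) fun m => ?_
  rw [hw']
  split_ifs with hm
  · exact hm.trans (mul_le_mul_of_nonneg_right (le_max_left _ _) (hs m))
  · have := MG.hgt_const (k := κ) (L := M m) 0
    rw [map_zero] at this
    rw [this]
    exact mul_nonneg (le_max_right _ _) (hs m)

/-- The constants. -/
theorem cst_mem_BS {F : Type} [Field F] [Algebra κ F] [IsFF κ F] [Algebra F Ω]
    [∀ m, Algebra F (M m)] [∀ m, IsScalarTower κ F (M m)] [∀ m, FiniteDimensional F (M m)]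
    (hσ : ∀ m a, σ m (algebraMap F (M m) a) = algebraMap F Ω a)
    (hs : ∀ m, (Module.finrank F (M m) : ℤ) ≤ s m) (a : F) :
    cst Ω (algebraMap F Ω a) ∈ BS κ σ s := by
  have h1 : cst Ω (algebraMap F Ω a) = Om.mk fun m => σ m (algebraMap F (M m) a) := by
    rw [cst_apply]
    congr 1
    funext m
    rw [hσ]
  rw [h1]
  refine mem_BS (H := hgt κ a) fun m => ?_
  rw [hgt_algebraMap, mul_comm]
  exact mul_le_mul_of_nonneg_left (hs m) (hgt_nonneg a)

/-- An algebraic equation. -/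
theorem alg_BS {z : ℕ → Ω} (h : IsIntegral (BS κ σ s) (Om.mk z)) :
    ∃ (N : ℕ) (w : ℕ → ∀ m, M m) (H : ℕ → ℤ), (∀ i m, hgt κ (w i m) ≤ H i * s m) ∧
      ∀ᶠ m in (hyperfilter ℕ : Filter ℕ),
        z m ^ N + ∑ i ∈ Finset.range N, σ m (w i m) * z m ^ i = 0 := by
  classical
  obtain ⟨p, hp⟩ : ∃ p, p = minpoly (BS κ σ s) (Om.mk z) := ⟨_, rfl⟩
  have hpm : p.Monic := by rw [hp]; exact minpoly.monic h
  have hp0 : Polynomial.aeval (Om.mk z) p = 0 := by rw [hp]; exact minpoly.aeval _ _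
  obtain ⟨N, hN⟩ : ∃ N, N = p.natDegree := ⟨_, rfl⟩
  have hc : ∀ i, ∃ (w : ∀ m, M m) (H : ℤ), (∀ m, hgt κ (w m) ≤ H * s m) ∧
      (p.coeff i : Om Ω) = Om.mk fun m => σ m (w m) := fun i => (p.coeff i).2
  choose w H hH hw using hc
  refine ⟨N, w, H, hH, ?_⟩
  rw [hpm.as_sum, ← hN, map_add, map_pow, Polynomial.aeval_X, map_sum] at hp0
  have h1 : ∀ i, Polynomial.aeval (Om.mk z) (Polynomial.C (p.coeff i) * Polynomial.X ^ i) =
      MF.mkHom Ω (fun m => σ m (w i m) * z m ^ i) := by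
    intro i
    rw [map_mul, map_pow, Polynomial.aeval_X, Polynomial.aeval_C]
    have h2 : algebraMap (BS κ σ s) (Om Ω) (p.coeff i) =
        MF.mkHom Ω (fun m => σ m (w i m)) := hw i
    have h3 : Om.mk z = MF.mkHom Ω z := rfl
    rw [h2, h3, ← map_pow, ← map_mul]
    rfl
  rw [Finset.sum_congr rfl fun i _ => h1 i, ← map_sum] at hp0
  have h4 : Om.mk z ^ N = MF.mkHom Ω (fun m => z m ^ N) := by
    have h3 : Om.mk z = MF.mkHom Ω z := rfl
    rw [h3, ← map_pow]
    rfl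
  rw [h4, ← map_add] at hp0
  have h5 := Om.mk_eq.1 (hp0.trans (map_zero (MF.mkHom Ω)).symm)
  filter_upwards [h5] with m hm
  rw [Pi.add_apply, Finset.sum_apply, Pi.zero_apply] at hm
  exact hm

/-- The elements that are algebraic over the sequences of height `O(s)` are of height `O(s)`. -/
theorem bdd_of_integral {x : ∀ m, M m} (h : IsIntegral (BS κ σ s) (Om.mk fun m => σ m (x m))) :
    ∃ B : ℤ, ∀ᶠ m in (hyperfilter ℕ : Filter ℕ), hgt κ (x m) ≤ B * s m := by
  obtain ⟨N, w, H, hH, hw⟩ := alg_BS h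
  refine ⟨∑ i ∈ Finset.range N, H i, ?_⟩
  filter_upwards [hw] with m hm
  have h1 : x m ^ N + ∑ i ∈ Finset.range N, w i m * x m ^ i = 0 := by
    apply (σ m).injective
    rw [map_zero, map_add, map_pow, map_sum]
    refine Eq.trans ?_ hm
    congr 1
    exact Finset.sum_congr rfl fun i _ => by rw [map_mul, map_pow]
  refine (Pool.Agent.Y735.R2.root_hgt (κ := κ) (c := fun i => w i m) h1).trans ?_
  rw [Finset.sum_mul]
  exact Finset.sum_le_sum fun i _ => hH i m

/-- The algebraic closure of the field of the sequences of height `O(s)`. -/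
theorem exists_KS [IsAlgClosed Ω] (κ : Type) [Field κ] [IsAlgClosed κ] [CharZero κ]
    {M : ℕ → Type} [∀ m, Field (M m)] [∀ m, Algebra κ (M m)] [∀ m, IsFF κ (M m)]
    (σ : ∀ m, M m →+* Ω) (s : ℕ → ℤ) :
    ∃ 𝕂 : Subfield (Om Ω), IsAlgClosed 𝕂 ∧ BS κ σ s ≤ 𝕂 ∧
      ∀ z ∈ 𝕂, IsIntegral (BS κ σ s) z := by
  have hac : IsAlgClosed (Om Ω) := Pool.Agent.W917.RG.GAC.main Ω
  refine ⟨acl (BS κ σ s : Set (Om Ω)), acl_isAlgClosed _, subset_acl _, fun z hz => ?_⟩
  have h1 := mem_acl.1 hz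
  have h2 : ∀ S T : Subfield (Om Ω), S = T → IsAlgebraic S z → IsAlgebraic T z := by
    rintro S _ rfl
    exact id
  exact (h2 _ _ (Subfield.closure_eq _) h1).isIntegral

end Pool.Agent.N752.QS
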