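import Pool.Agent.Y735.S.Cases5

/-!
Homomorphisms of fields with derivations.
-/

set_option autoImplicit false

open MvPolynomial Pool.Agent.Y735 Pool.Agent.Y735.S

namespace Pool.Agent.N752.QS

variable {L M : Type} [Field L] [Field M] {n : ℕ} {σ : L →+* M}
  {D : (Fin (n + 1) →₀ ℕ) → Derivation ℤ L L} {D' : (Fin (n + 1) →₀ ℕ) → Derivation ℤ M M}

theorem DD_hom (h : ∀ I a, D' I (σ a) = σ (D I a)) (G : MvPolynomial (Fin (n + 1)) L) (a : L) :
    DD D' (map σ G) (σ a) = σ (DD D G a) := by
  induction G using MvPolynomial.induction_on' with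
  | monomial u b =>
    rw [MvPolynomial.map_monomial, DD_monomial, DD_monomial, Derivation.smul_apply,
      Derivation.smul_apply, smul_eq_mul, smul_eq_mul, map_mul, h]
  | add p q hp hq =>
    rw [map_add, DD_add, DD_add, hp, hq, map_add]

theorem vec_hom (h : ∀ I a, D' I (σ a) = σ (D I a)) (x : Fin (n + 1) → L)
    (G : MvPolynomial (Fin (n + 1)) L) (l : Fin (n + 1)) :
    vec D' (fun l => σ (x l)) (map σ G) l = σ (vec D x G l) := by
  rw [vec_apply, vec_apply]
  exact DD_hom h G (x l)

theorem single_hom (j l : Fin (n + 1)) :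
    (Pi.single j 1 : Fin (n + 1) → M) l = σ ((Pi.single j 1 : Fin (n + 1) → L) l) := by
  by_cases h : l = j
  · rw [h, Pi.single_eq_same, Pi.single_eq_same, map_one]
  · rw [Pi.single_eq_of_ne h, Pi.single_eq_of_ne h, map_zero]

theorem wv_hom (h : ∀ I a, D' I (σ a) = σ (D I a)) (F : MvPolynomial (Fin (n + 1)) L)
    (x : Fin (n + 1) → L) (pq : Fin (n + 1) × Fin (n + 1)) (l : Fin (n + 1)) :
    wv (map σ F) D' (fun l => σ (x l)) pq l = σ (wv F D x pq l) := by
  unfold wv
  have h1 : X pq.2 * pderiv pq.1 (map σ F) = map σ (X pq.2 * pderiv pq.1 F) := by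
    rw [map_mul, map_X, pderiv_map]
  rw [h1, Pi.add_apply, Pi.smul_apply, smul_eq_mul, vec_hom h, single_hom (σ := σ), ← map_mul,
    ← map_add]
  rfl

theorem vl_hom (σ : L →+* M) (e x u v : Fin (3 + 1) → L) :
    vl (fun l => σ (e l)) (fun l => σ (x l)) (fun l => σ (u l)) (fun l => σ (v l)) =
      σ (vl e x u v) := by
  unfold vl
  rw [σ.map_det]
  congr 1
  ext i l
  fin_cases i <;> rfl

theorem Dj_hom {D : (Fin (3 + 1) →₀ ℕ) → Derivation ℤ L L}
    {D' : (Fin (3 + 1) →₀ ℕ) → Derivation ℤ M M} (h : ∀ I a, D' I (σ a) = σ (D I a))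
    (x : Fin (3 + 1) → L) (j : Fin (3 + 1)) (Q : MvPolynomial (Fin (3 + 1)) L)
    (a b c : Fin (3 + 1)) :
    Dj D' (fun l => σ (x l)) j (map σ Q) a b c = σ (Dj D x j Q a b c) := by
  have hs : (Pi.single j 1 : Fin (3 + 1) → M) =
      fun l => σ ((Pi.single j 1 : Fin (3 + 1) → L) l) := funext fun l => single_hom j l
  have hv : ∀ i, vec D' (fun l => σ (x l)) (map σ Q * X i) =
      fun l => σ (vec D x (Q * X i) l) := by
    intro i
    funext l
    have h1 : map σ Q * X i = map σ (Q * X i) := by rw [map_mul, map_X]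
    rw [h1, vec_hom h]
  unfold Dj
  rw [hs, hv, hv, hv, vl_hom, vl_hom, vl_hom]
  simp only [map_add, map_sub, map_mul]

/-- A derivation of an algebraic extension of `F` is determined by its values on `F`. -/
theorem der_hom {F : Type} [Field F] [Algebra F L] [Algebra F M] [CharZero F]
    [Algebra.IsAlgebraic F L] (hσ : ∀ a, σ (algebraMap F L a) = algebraMap F M a)
    {E : Derivation ℤ L L} {E' : Derivation ℤ M M} {E0 : Derivation ℤ F F}
    (h : ∀ a, E (algebraMap F L a) = algebraMap F L (E0 a))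
    (h' : ∀ a, E' (algebraMap F M a) = algebraMap F M (E0 a)) (a : L) : E' (σ a) = σ (E a) := by
  have hL : CharZero L := charZero_of_injective_algebraMap (algebraMap F L).injective
  -- the minimal polynomial
  have ha : IsAlgebraic F a := Algebra.IsAlgebraic.isAlgebraic a
  obtain ⟨p, hp⟩ : ∃ p, p = minpoly F a := ⟨_, rfl⟩
  have hp1 : Polynomial.aeval a p = 0 := by rw [hp]; exact minpoly.aeval _ _
  have hp2 : Polynomial.aeval a (Polynomial.derivative p) ≠ 0 := by
    rw [hp]
    exact (minpoly.irreducible ha.isIntegral).separable.aeval_derivative_ne_zero (minpoly.aeval _ _)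
  have key : ∀ {N : Type} [Field N] [Algebra F N] (T : Derivation ℤ N N)
      (_ : ∀ a, T (algebraMap F N a) = algebraMap F N (E0 a)) (b : N) (q : Polynomial F),
      T (Polynomial.aeval b q) = ∑ i ∈ q.support, algebraMap F N (E0 (q.coeff i)) * b ^ i +
        Polynomial.aeval b (Polynomial.derivative q) * T b := by
    intro N _ _ T hT b q
    have h1 : Polynomial.aeval b q = ∑ i ∈ q.support, algebraMap F N (q.coeff i) * b ^ i := by
      rw [Polynomial.aeval_def, Polynomial.eval₂_eq_sum, Polynomial.sum_def]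
    have h2 : Polynomial.aeval b (Polynomial.derivative q) =
        ∑ i ∈ q.support, algebraMap F N (q.coeff i) * (i * b ^ (i - 1)) := by
      rw [Polynomial.derivative_apply, Polynomial.sum_def]
      rw [map_sum]
      refine Finset.sum_congr rfl fun i _ => ?_
      simp only [map_mul, map_natCast, Polynomial.aeval_C, map_pow, Polynomial.aeval_X]
      ring
    rw [h1, h2, map_sum, Finset.sum_mul, ← Finset.sum_add_distrib]
    refine Finset.sum_congr rfl fun i _ => ?_
    rw [T.leibniz, hT, T.leibniz_pow]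
    simp only [smul_eq_mul, nsmul_eq_mul]
    ring
  have e1 := key E h a p
  have e2 := key E' h' (σ a) p
  have hs : ∀ q : Polynomial F, Polynomial.aeval (σ a) q = σ (Polynomial.aeval a q) := by
    intro q
    rw [Polynomial.aeval_def, Polynomial.aeval_def, Polynomial.hom_eval₂]
    congr 1
    ext c
    exact (hσ c).symm
  rw [hp1, map_zero] at e1
  rw [hs, hs, hp1, map_zero, map_zero] at e2
  have e3 := congrArg σ e1
  rw [map_zero, map_add, map_mul, map_sum] at e3
  have e4 : ∑ i ∈ p.support, σ (algebraMap F L (E0 (p.coeff i)) * a ^ i) =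
      ∑ i ∈ p.support, algebraMap F M (E0 (p.coeff i)) * σ a ^ i :=
    Finset.sum_congr rfl fun i _ => by rw [map_mul, map_pow, hσ]
  rw [e4] at e3
  have hne : σ (Polynomial.aeval a (Polynomial.derivative p)) ≠ 0 := by
    rw [Ne, map_eq_zero]
    exact hp2
  have e5 : σ (Polynomial.aeval a (Polynomial.derivative p)) * (E' (σ a) - σ (E a)) = 0 := by
    linear_combination e3 - e2
  rcases mul_eq_zero.1 e5 with h1 | h1
  · exact absurd h1 hne
  · exact sub_eq_zero.1 h1

end Pool.Agent.N752.QS
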