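import Pool.Agent.N752.QS.Ultra
import Pool.Agent.Y735.V.Surf
import Pool.Agent.TH145.GF.Ext

/-!
All algebraic points on generic quintic surfaces.
-/

set_option autoImplicit false

open MvPolynomial FF Pool.Agent.W603.LV Pool.Agent.W603.PV Pool.Agent.TH145.GH
  Pool.Agent.TH145.MG Pool.Agent.W602.GT Pool.Agent.Y735 Pool.Agent.Y735.S Pool.Agent.Y735.V
open Pool.Agent.TH812.GV Pool.Agent.TH812.GV2
open Filter (hyperfilter eventually_all cofinite eventually_ge_atTop hyperfilter_le_cofinite)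

namespace Pool.Agent.N752.QS

/-- The derivations of all the finite extensions. -/
theorem exists_dataU {k0 k F0 F : Type} [Field k0] [Field k] [Field F0] [Field F] [IsAlgClosed k]
    [CharZero k] [Algebra k0 k] [Algebra k F] [Algebra k0 F] [IsScalarTower k0 k F]
    [Algebra k0 F0] [Algebra F0 F] [IsScalarTower k0 F0 F] [IsFF k F]
    (hfg : ∃ S : Finset F0, IntermediateField.adjoin k0 (S : Set F0) = ⊤) {n d : ℕ}
    (hd : 0 < d)
    {H : MvPolynomial (Fin (n + 1)) F} (hH : H.IsHomogeneous d)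
    (hgen : AlgebraicIndependent F0 fun I : {I : Fin (n + 1) →₀ ℕ // I.degree = d} =>
      H.coeff I.1) :
    ∃ (D : (Fin (n + 1) →₀ ℕ) → Derivation ℤ F F) (N : ℕ)
      (R : Fin (n + 1) → Fin (n + 1) → MvPolynomial (Fin (n + 1)) F) (C1 C3 : ℕ),
      (∀ l, X l ^ N = ∑ i, R l i * pderiv i H) ∧
      ∀ (L : Type) [Field L] [Algebra k L] [Algebra F L]
      [IsScalarTower k F L] [FiniteDimensional F L] [IsFF k L],
      ∃ (D' : (Fin (n + 1) →₀ ℕ) → Derivation ℤ L L) (e g : Place k L → ℤ),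
      (∀ I a, D' I (algebraMap F L a) = algebraMap F L (D I a)) ∧
      Data k (map (algebraMap F L) H) d D' e g ∧ (∀ I J a, D' I (D' J a) = D' J (D' I a)) ∧
      0 ≤ ∑ᶠ P, e P ∧ ∑ᶠ P, e P ≤ canDeg k L + C1 * Module.finrank F L ∧
      ∑ᶠ P, g P ≤ C3 * Module.finrank F L ∧
      CC n e g = (n + 1) * (∑ᶠ P, e P + ∑ᶠ P, g P) + ∑ᶠ P, g P := by
  classical
  have hF : CharZero F := charZero_of_injective_algebraMap (algebraMap k F).injective
  have hdeg := finite_deg n d
  have := Fintype.ofFinite {I : Fin (n + 1) →₀ ℕ // I.degree = d}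
  obtain ⟨N, R, hR⟩ := exists_null' (by omega) hH hgen
  obtain ⟨Db, hDbg, -, hDb, hDbc⟩ := exists_duals3 (k0 := k0) (k := k) (F0 := F0) (F := F) hfg
    (fun I : {I : Fin (n + 1) →₀ ℕ // I.degree = d} => H.coeff I.1) hgen
  obtain ⟨D, hD⟩ : ∃ D : (Fin (n + 1) →₀ ℕ) → Derivation ℤ F F, ∀ I, D I =
      if h : I.degree = d then Db ⟨I, h⟩ else 0 := ⟨_, fun _ => rfl⟩
  have hDd : ∀ I (h : I.degree = d), D I = Db ⟨I, h⟩ := fun I h => by rw [hD, dif_pos h]
  have hD0 : ∀ I : Fin (n + 1) →₀ ℕ, I.degree ≠ d → D I = 0 := fun I h => by rw [hD, dif_neg h]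
  have hgood : ∀ I, GoodS k (D I) := by
    intro I
    by_cases h : I.degree = d
    · rw [hDd I h]; exact hDbg _
    · rw [hD0 I h]; exact GoodS.zero
  have hcom : ∀ I J a, D I (D J a) = D J (D I a) := by
    intro I J a
    by_cases hI : I.degree = d
    · by_cases hJ : J.degree = d
      · rw [hDd I hI, hDd J hJ]; exact hDbc _ _ _
      · rw [hD0 J hJ, Derivation.zero_apply, Derivation.zero_apply, map_zero]
    · rw [hD0 I hI, Derivation.zero_apply, Derivation.zero_apply, map_zero]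
  choose q hq0 hqf hq using hgood
  have hfinI : {I : Fin (n + 1) →₀ ℕ | I.degree = d}.Finite :=
    (Finsupp.finite_of_degree_le d).subset fun I hI => le_of_eq hI
  obtain ⟨Q, hQ⟩ : ∃ Q : Place k F → ℤ, ∀ v, Q v = ∑ I ∈ hfinI.toFinset, q I v :=
    ⟨_, fun _ => rfl⟩
  have hQ0 : ∀ v, 0 ≤ Q v := fun v => by
    rw [hQ]
    exact Finset.sum_nonneg fun I _ => hq0 I v
  have hQf : {v | Q v ≠ 0}.Finite := by
    have h1 : (⋃ I ∈ hfinI.toFinset, {v | q I v ≠ 0}).Finite :=
      hfinI.toFinset.finite_toSet.biUnion fun I _ => hqf I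
    refine h1.subset fun v hv => ?_
    by_contra hcon
    simp only [Set.mem_iUnion, not_exists, Set.mem_ofPred_eq, not_not] at hcon
    apply hv
    rw [hQ]
    exact Finset.sum_eq_zero fun I hI => hcon I hI
  have hQle : ∀ (I : Fin (n + 1) →₀ ℕ), I.degree = d → ∀ v, q I v ≤ Q v := by
    intro I hI v
    rw [hQ]
    exact Finset.single_le_sum (f := fun I => q I v) (fun I _ => hq0 I v)
      (by rw [Set.Finite.mem_toFinset]; exact hI)
  obtain ⟨C1, hC1⟩ := sum_loss (k := k) hQ0 hQf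
  -- the poles of the coefficients
  obtain ⟨G, hG0, hGf, hG⟩ := exists_poles (κ := k)
    ((H.support.image fun u => H.coeff u) ∪ Finset.univ.biUnion fun p : Fin (n + 1) × Fin (n + 1)
      => (R p.1 p.2).support.image fun u => (R p.1 p.2).coeff u)
  obtain ⟨C3, hC3⟩ := sum_under (k := k) hG0 hGf
  refine ⟨D, N, R, C1, C3, hR, ?_⟩
  intro L _ _ _ _ _ _
  have hLz : CharZero L := charZero_of_injective_algebraMap (algebraMap k L).injective
  choose D' hD' hDl using fun I => hq I L
  obtain ⟨HL, hHL⟩ : ∃ HL, HL = map (algebraMap F L) H := ⟨_, rfl⟩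
  obtain ⟨hqfin, hqsum⟩ := hC1 L
  obtain ⟨hufin, husum⟩ := hC3 L
  obtain ⟨el, hel⟩ : ∃ el : Place k L → ℤ, ∀ P, el P =
    ((ram F P : ℤ) - 1) + ram F P * Q (under F P) := ⟨_, fun _ => rfl⟩
  obtain ⟨gl, hgl⟩ : ∃ gl : Place k L → ℤ, ∀ P, gl P = ram F P * G (under F P) :=
    ⟨_, fun _ => rfl⟩
  have hram : ∀ P : Place k L, (1 : ℤ) ≤ ram F P := fun P => by
    have := (ram_spec (F := F) P).1
    omega
  have hgl0 : ∀ P, 0 ≤ gl P := fun P => by
    rw [hgl]
    exact mul_nonneg (by positivity) (hG0 _)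
  have hel0 : ∀ P, 0 ≤ el P := fun P => by
    rw [hel]
    have h1 := hram P
    have h2 : 0 ≤ (ram F P : ℤ) * Q (under F P) := mul_nonneg (by positivity) (hQ0 _)
    linarith
  have hpole : ∀ z : F, (∀ v, Ge v (-G v) z) → ∀ P : Place k L, Ge P (-gl P) (algebraMap F L z) := by
    intro z hz P
    by_cases hz0 : z = 0
    · rw [hz0, map_zero]; exact Or.inl rfl
    · right
      have h1 := (hz (under F P)).resolve_left hz0
      rw [ord_under, hgl]
      have h2 := hram P
      nlinarith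
  have hefin : {P | el P ≠ 0}.Finite := by simp only [hel]; exact hqfin
  have hgfin : {P | gl P ≠ 0}.Finite := by simp only [hgl]; exact hufin
  have hcoefz : ∀ p : MvPolynomial (Fin (n + 1)) F, (∀ u ∈ p.support, ∀ v, Ge v (-G v) (p.coeff u)) →
      ∀ u v, Ge v (-G v) (p.coeff u) := by
    intro p hp u v
    by_cases hu : u ∈ p.support
    · exact hp u hu v
    · rw [notMem_support_iff.1 hu]; exact Or.inl rfl
  have hdat : Data k HL d D' el gl := by
    rw [hHL]
    refine Data.of_null (by omega) (hH.map _) ?_ hel0 hgl0 ?_ ?_ ?_ N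
      (fun l i => map (algebraMap F L) (R l i)) ?_ ?_
    · intro I J hI hJ
      rw [coeff_map, hD', hDd I hI]
      constructor
      · intro h
        subst h
        have := (hDb ⟨I, hI⟩ ⟨I, hJ⟩).1 rfl
        dsimp only at this
        rw [this, map_one]
      · intro h
        have := (hDb ⟨I, hI⟩ ⟨J, hJ⟩).2 fun h' => h (congrArg Subtype.val h')
        dsimp only at this
        rw [this, map_zero]
    · intro P f hf I hI
      obtain ⟨δ, hδ⟩ := exists_locd P
      obtain ⟨h1, h2⟩ := hDl I P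
      have h3 := h2 δ hδ 0 f hf
      have h4 := h1.mul (hδ.2.2 f hf)
      have h5 : D' I f = D' I (unif P) * δ f + (D' I f - D' I (unif P) * δ f) := by ring
      have h6 := hQle I hI (under F P)
      have h7 := hram P
      have h8 : (ram F P : ℤ) * q I (under F P) ≤ ram F P * Q (under F P) :=
        mul_le_mul_of_nonneg_left h6 (by omega)
      rw [h5]
      refine Ge.add (h4.mono ?_) (h3.mono ?_)
      · rw [hel]; linarith
      · rw [hel]; linarith
    · intro P u
      rw [coeff_map]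
      refine hpole _ (fun v => ?_) P
      exact hcoefz H (fun u hu v => hG v _ (Finset.mem_union_left _
        (Finset.mem_image.2 ⟨u, hu, rfl⟩))) u v
    · refine (hefin.union hgfin).subset fun P hP => ?_
      rcases hP with hP | hP
      · exact Or.inl hP
      · exact Or.inr hP
    · intro l
      have h1 := congrArg (map (algebraMap F L)) (hR l)
      rw [map_pow, map_X, map_sum] at h1
      rw [h1]
      exact Finset.sum_congr rfl fun i _ => by rw [map_mul, pderiv_map]
    · intro P l i u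
      rw [coeff_map]
      refine hpole _ (fun v => ?_) P
      exact hcoefz (R l i) (fun u hu v => hG v _ (Finset.mem_union_right _
        (Finset.mem_biUnion.2 ⟨(l, i), Finset.mem_univ _, Finset.mem_image.2 ⟨u, hu, rfl⟩⟩))) u v
  have hcomL : ∀ I J a, D' I (D' J a) = D' J (D' I a) := by
    intro I J a
    have h1 := zero_of_alg (F := F) (L := L) ⁅D' I, D' J⁆ (fun a => by
      rw [Derivation.commutator_apply, hD', hD', hD', hD', hcom, sub_self]) a
    rw [Derivation.commutator_apply] at h1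
    exact sub_eq_zero.1 h1
  have hes : ∑ᶠ P, el P ≤ canDeg k L + C1 * Module.finrank F L := by
    have h1 : el = fun P => ((ram F P : ℤ) - 1) + ram F P * Q (under F P) := funext hel
    rw [h1]
    exact hqsum
  have hgs : ∑ᶠ P, gl P ≤ C3 * Module.finrank F L := by
    have h1 : gl = fun P => (ram F P : ℤ) * G (under F P) := funext hgl
    rw [h1]
    exact husum
  have hCC : CC n el gl = (n + 1) * (∑ᶠ P, el P + ∑ᶠ P, gl P) + ∑ᶠ P, gl P := by
    unfold Pool.Agent.Y735.CC
    have hf1 : {P | ((n : ℤ) + 1) * (el P + gl P) ≠ 0}.Finite := by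
      refine (hefin.union hgfin).subset fun P hP => ?_
      by_contra hcon
      simp only [Set.mem_union, Set.mem_ofPred_eq, not_or, not_not] at hcon
      apply hP
      rw [hcon.1, hcon.2]
      ring
    rw [finsum_add_distrib hf1 hgfin, ← mul_finsum, finsum_add_distrib hefin hgfin]
  exact ⟨D', el, gl, fun I a => hD' I a, hHL ▸ hdat, hcomL, finsum_nonneg hel0, hes, hgs, hCC⟩

/-- A finite extension of a function field. -/
structure FE (k F : Type) [Field k] [Field F] [Algebra k F] where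
  /-- the field -/
  L : Type
  [i1 : Field L]
  [i2 : Algebra k L]
  [i3 : Algebra F L]
  [i4 : IsScalarTower k F L]
  [i5 : FiniteDimensional F L]
  [i6 : IsFF k L]

attribute [instance] FE.i1 FE.i2 FE.i3 FE.i4 FE.i5 FE.i6

/-- The heights of the remaining points, for all extensions. -/
theorem bounded_rest {k F : Type} [Field k] [Field F] [IsAlgClosed k] [CharZero k] [Algebra k F]
    [IsFF k F] {H : MvPolynomial (Fin (3 + 1)) F} (hH : H.IsHomogeneous 5) (hgen : GenF 5 H)
    {D : (Fin (3 + 1) →₀ ℕ) → Derivation ℤ F F} {N : ℕ}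
    {R : Fin (3 + 1) → Fin (3 + 1) → MvPolynomial (Fin (3 + 1)) F}
    (hnull : ∀ l, X l ^ N = ∑ i, R l i * pderiv i H) (s : FE k F → ℤ)
    (hs : ∀ E : FE k F, (Module.finrank F E.L : ℤ) ≤ s E) (C : ℤ) (l0 : Fin (3 + 1)) :
    ∃ B : ℕ, ∀ (E : FE k F) (D' : (Fin (3 + 1) →₀ ℕ) → Derivation ℤ E.L E.L)
      (e g : Place k E.L → ℤ), (∀ I a, D' I (algebraMap F E.L a) = algebraMap F E.L (D I a)) →
      Data k (map (algebraMap F E.L) H) 5 D' e g → CC 3 e g ≤ C * s E →
      ∀ x : Fin (3 + 1) → E.L, x l0 = 1 → eval x (map (algebraMap F E.L) H) = 0 →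
        Rest k (map (algebraMap F E.L) H) D' x → ∀ l, hgt k (x l) ≤ B * s E := by
  classical
  have hF : CharZero F := charZero_of_injective_algebraMap (algebraMap k F).injective
  by_contra hcon
  push Not at hcon
  choose E D' e g hD' hdat hC x hx hxF hR l hl using hcon
  choose DΩ hDΩ using fun I => Pool.Agent.TH145.GF.exists_der_ext (L := F)
    (Ω := AlgebraicClosure F) (D I)
  obtain ⟨σ, hσ⟩ : ∃ σ : ∀ m, (E m).L →+* AlgebraicClosure F,
      ∀ m a, σ m (algebraMap F (E m).L a) = algebraMap F (AlgebraicClosure F) a :=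
    ⟨fun m => (IsAlgClosed.lift (R := F) (S := (E m).L) (M := AlgebraicClosure F) :
      (E m).L →ₐ[F] AlgebraicClosure F).toRingHom, fun m a => AlgHom.commutes _ a⟩
  have h1 := ultraS (κ := k) (F := F) (Ω := AlgebraicClosure F) (M := fun m => (E m).L) σ hσ
    (s := fun m => s (E m)) (fun m => hs (E m)) hH (D := DΩ) (D' := D')
    (fun m I a => der_hom (F := F) (hσ m) (hD' m I) (hDΩ I) a) hdat hC hnull hgen x hx hxF hR
  choose B hB using h1
  obtain ⟨A, hA⟩ : ∃ A : ℕ, ∀ l, B l ≤ A := by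
    refine ⟨∑ l, (B l).toNat, fun l => ?_⟩
    have h2 := Finset.single_le_sum (f := fun l => (B l).toNat) (fun _ _ => Nat.zero_le _)
      (Finset.mem_univ l)
    have h3 := Int.self_le_toNat (B l)
    have h4 : (((B l).toNat : ℕ) : ℤ) ≤ ((∑ l, (B l).toNat : ℕ) : ℤ) := by exact_mod_cast h2
    linarith
  have h2 : ∀ᶠ m in (hyperfilter ℕ : Filter ℕ), A ≤ m := by
    have h3 : ∀ᶠ m in (cofinite : Filter ℕ), A ≤ m := by
      rw [Nat.cofinite_eq_atTop]
      exact eventually_ge_atTop A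
    exact hyperfilter_le_cofinite h3
  obtain ⟨m, h3, h4⟩ := ((eventually_all.2 hB).and h2).exists
  have h5 := hl m
  have h6 := h3 (l m)
  have h7 := hA (l m)
  have h8 : (A : ℤ) ≤ m := by exact_mod_cast h4
  have h9 : (0 : ℤ) ≤ s (E m) := (Nat.cast_nonneg _).trans (hs (E m))
  have h10 : B (l m) * s (E m) ≤ m * s (E m) :=
    mul_le_mul_of_nonneg_right (h7.trans h8) h9
  linarith

/-- The heights of all the algebraic points of a generic quintic surface. -/
theorem quintic {k0 k F0 F : Type} [Field k0] [Field k] [Field F0] [Field F] [IsAlgClosed k]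
    [CharZero k] [Algebra k0 k] [Algebra k F] [Algebra k0 F] [IsScalarTower k0 k F]
    [Algebra k0 F0] [Algebra F0 F] [IsScalarTower k0 F0 F] [IsFF k F]
    (hfg : ∃ S : Finset F0, IntermediateField.adjoin k0 (S : Set F0) = ⊤)
    {H : MvPolynomial (Fin (3 + 1)) F} (hH : H.IsHomogeneous 5)
    (hgen : AlgebraicIndependent F0 fun I : {I : Fin (3 + 1) →₀ ℕ // I.degree = 5} =>
      H.coeff I.1) :
    ∃ c B : ℕ, ∀ (L : Type) [Field L] [Algebra k L] [Algebra F L]
      [IsScalarTower k F L] [FiniteDimensional F L] (x : Fin (3 + 1) → L), x ≠ 0 →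
      aeval x H = 0 → pht k x ≤ c * canDeg k L + B * Module.finrank F L := by
  classical
  have hF : CharZero F := charZero_of_injective_algebraMap (algebraMap k F).injective
  obtain ⟨D, N, R, C1, C3, hR, hdata⟩ := exists_dataU (k0 := k0) (k := k) hfg (by norm_num) hH
    hgen
  have hGF : GenF 5 H := GenF.of_base hgen
  obtain ⟨s, hs⟩ : ∃ s : FE k F → ℤ, ∀ E : FE k F, s E = canDeg k E.L +
      ((C1 : ℤ) + 1) * Module.finrank F E.L := ⟨_, fun _ => rfl⟩
  have hs1 : ∀ E : FE k F, (Module.finrank F E.L : ℤ) ≤ s E := by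
    intro E
    obtain ⟨D', e, g, -, -, -, h1, h2, -⟩ := hdata E.L
    rw [hs]
    linarith
  choose B hB using fun l0 => bounded_rest (D := D) hH hGF hR s hs1 (4 + 5 * C3) l0
  obtain ⟨A, hA⟩ : ∃ A : ℕ, A = 6 * (4 + 5 * C3) + 2 * C3 + 4 * ∑ l0, B l0 := ⟨_, rfl⟩
  refine ⟨A, A * (C1 + 1), fun L _ _ _ _ _ x hx hxH => ?_⟩
  have hL : IsFF k L := isFF_of_finite (F := F)
  have hLz : CharZero L := charZero_of_injective_algebraMap (algebraMap k L).injective
  obtain ⟨E, hE⟩ : ∃ E : FE k F, E = FE.mk L := ⟨_, rfl⟩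
  obtain ⟨D', e, g, hD', hdat, hc, h1, h2, h3, h4⟩ := hdata L
  have hsE : s E = canDeg k L + ((C1 : ℤ) + 1) * Module.finrank F L := by
    rw [hs, hE]
  have hsL : (Module.finrank F L : ℤ) ≤ s E := by
    rw [hsE]; linarith
  have hf0 : (0 : ℤ) ≤ Module.finrank F L := Nat.cast_nonneg _
  have hs0 : (0 : ℤ) ≤ s E := hf0.trans hsL
  have hgs : ∑ᶠ P, g P ≤ C3 * s E := h3.trans (mul_le_mul_of_nonneg_left hsL (by positivity))
  have hes : ∑ᶠ P, e P ≤ s E := by
    rw [hsE]; linarith
  have hCC : CC 3 e g ≤ (4 + 5 * C3) * s E := by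
    rw [h4]
    push_cast
    linarith
  have hfin : pht k x ≤ A * s E := by
    have hAs : ∀ b : ℤ, b ≤ A → b * s E ≤ A * s E := fun b hb => mul_le_mul_of_nonneg_right hb hs0
    obtain ⟨l0, hl0⟩ := Function.ne_iff.1 hx
    have hl0' : x l0 ≠ 0 := hl0
    obtain ⟨x', hx'⟩ : ∃ x' : Fin (3 + 1) → L, x' = (x l0)⁻¹ • x := ⟨_, rfl⟩
    have hx'l : x' l0 = 1 := by
      rw [hx', Pi.smul_apply, smul_eq_mul, inv_mul_cancel₀ hl0']
    have hx'0 : x' ≠ 0 := by
      intro h0
      rw [h0] at hx'l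
      exact zero_ne_one hx'l
    have hx'F : eval x' (map (algebraMap F L) H) = 0 := by
      rw [hx', eval_smul_hom hdat.hom, eval_map, ← aeval_def, hxH, mul_zero]
    have hpht : pht k x = pht k x' := by
      rw [hx']
      exact (pht_scale ⟨l0, hl0'⟩ (inv_ne_zero hl0')).symm
    rw [hpht]
    rcases ineq5 hdat hc hx'F hx'0 with h5 | h5 | h5
    · exact absurd h5 ((hGF.map (algebraMap F L)).no_lines hdat.hom x')
    · refine le_trans (b := (6 * (4 + 5 * C3) + 2 * C3 : ℤ) * s E) (by linarith) (hAs _ ?_)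
      rw [hA]
      push_cast
      have : (0 : ℤ) ≤ ∑ l0, (B l0 : ℤ) := Finset.sum_nonneg fun _ _ => Nat.cast_nonneg _
      linarith
    · have h6 := pht_le (k := k) x' (l := l0) (by rw [hx'l]; exact one_ne_zero)
      refine h6.trans ?_
      have h7 : ∀ j, hgt k (x' j / x' l0) ≤ B l0 * s E := by
        intro j
        rw [hx'l, div_one]
        subst hE
        exact hB l0 (FE.mk L) D' e g hD' hdat hCC x' hx'l hx'F h5 j
      refine (Finset.sum_le_sum fun j _ => h7 j).trans ?_
      rw [Finset.sum_const, Finset.card_univ, Fintype.card_fin, nsmul_eq_mul]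
      refine le_trans (b := (4 * B l0 : ℤ) * s E) (by push_cast; linarith) (hAs _ ?_)
      rw [hA]
      push_cast
      have h8 : (B l0 : ℤ) ≤ ∑ l0, (B l0 : ℤ) :=
        Finset.single_le_sum (f := fun l0 => (B l0 : ℤ)) (fun _ _ => Nat.cast_nonneg _)
          (Finset.mem_univ l0)
      have h9 : (0 : ℤ) ≤ C3 := Nat.cast_nonneg _
      linarith
  rw [hsE] at hfin
  push_cast
  linarith

end Pool.Agent.N752.QS
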