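import Pool.Agent.Y735.S.Ultra
import Pool.Agent.N752.QS.BS
import Pool.Agent.N752.QS.Hom

/-!
Points over varying fields, of unbounded height relative to the fields, on quintic surfaces.
-/

set_option autoImplicit false

open MvPolynomial FF Pool.Agent.W603.LV Pool.Agent.W603.PV Pool.Agent.W602.RG Pool.Agent.TH145.GH
open Pool.Agent.TH145 Pool.Agent.Y735 Pool.Agent.Y735.S
open Filter (hyperfilter eventually_all cofinite eventually_ge_atTop hyperfilter_le_cofinite)

namespace Pool.Agent.N752.QS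

theorem ultraS {κ F Ω : Type} [Field κ] [Field F] [Field Ω] [Algebra κ F] [CharZero κ] [IsFF κ F]
    [IsAlgClosed κ] [Algebra F Ω] [IsAlgClosed Ω] {M : ℕ → Type} [∀ m, Field (M m)]
    [∀ m, Algebra κ (M m)] [∀ m, IsFF κ (M m)] [∀ m, Algebra F (M m)]
    [∀ m, IsScalarTower κ F (M m)] [∀ m, FiniteDimensional F (M m)] (σ : ∀ m, M m →+* Ω)
    (hσ : ∀ m a, σ m (algebraMap F (M m) a) = algebraMap F Ω a) {s : ℕ → ℤ}
    (hs : ∀ m, (Module.finrank F (M m) : ℤ) ≤ s m)
    {H : MvPolynomial (Fin (3 + 1)) F} (hH : H.IsHomogeneous 5)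
    {D : (Fin (3 + 1) →₀ ℕ) → Derivation ℤ Ω Ω}
    {D' : ∀ m, (Fin (3 + 1) →₀ ℕ) → Derivation ℤ (M m) (M m)}
    (hD : ∀ m I a, D I (σ m a) = σ m (D' m I a)) {e g : ∀ m, Place κ (M m) → ℤ}
    (hdat : ∀ m, Data κ (map (algebraMap F (M m)) H) 5 (D' m) (e m) (g m)) {C : ℤ}
    (hC : ∀ m, CC 3 (e m) (g m) ≤ C * s m) {N : ℕ}
    {Q : Fin (3 + 1) → Fin (3 + 1) → MvPolynomial (Fin (3 + 1)) F}
    (hnull : ∀ l, X l ^ N = ∑ i, Q l i * pderiv i H) (hgen : GenF 5 H) {l0 : Fin (3 + 1)}
    (x : ∀ m, Fin (3 + 1) → M m) (hx : ∀ m, x m l0 = 1)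
    (hxF : ∀ m, eval (x m) (map (algebraMap F (M m)) H) = 0)
    (hR : ∀ m, Rest κ (map (algebraMap F (M m)) H) (D' m) (x m)) (l : Fin (3 + 1)) :
    ∃ B : ℤ, ∀ᶠ m in (hyperfilter ℕ : Filter ℕ), hgt κ (x m l) ≤ B * s m := by
  classical
  have hs0 : ∀ m, 0 ≤ s m := fun m => (Nat.cast_nonneg _).trans (hs m)
  have hczF : CharZero F := charZero_of_injective_algebraMap (algebraMap κ F).injective
  have hczM : ∀ m, CharZero (M m) := fun m =>
    charZero_of_injective_algebraMap (algebraMap F (M m)).injective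
  have hczΩ : CharZero Ω := charZero_of_injective_algebraMap (algebraMap F Ω).injective
  have hczOm : CharZero (Om Ω) :=
    charZero_of_injective_algebraMap (algebraMap Ω (Om Ω)).injective
  obtain ⟨𝕂, hac, hle, hint⟩ := exists_KS (Ω := Ω) κ σ s
  have hcz1 : CharZero 𝕂 := by
    constructor
    intro a b hab
    have h1 := congrArg (fun z : 𝕂 => (z : Om Ω)) hab
    simpa using h1
  let φ : F →+* 𝕂 :=
    { toFun := fun a => ⟨cst Ω (algebraMap F Ω a), hle (cst_mem_BS hσ hs a)⟩
      map_one' := Subtype.ext (by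
        change cst Ω (algebraMap F Ω 1) = 1
        rw [map_one, map_one])
      map_mul' := fun a b => Subtype.ext (by
        change cst Ω (algebraMap F Ω (a * b)) = cst Ω (algebraMap F Ω a) * cst Ω (algebraMap F Ω b)
        rw [map_mul, map_mul])
      map_zero' := Subtype.ext (by
        change cst Ω (algebraMap F Ω 0) = 0
        rw [map_zero, map_zero])
      map_add' := fun a b => Subtype.ext (by
        change cst Ω (algebraMap F Ω (a + b)) = cst Ω (algebraMap F Ω a) + cst Ω (algebraMap F Ω b)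
        rw [map_add, map_add]) }
  obtain ⟨G, hG⟩ : ∃ G, G = map (algebraMap F Ω) H := ⟨_, rfl⟩
  have hFF : map (RingHom.id (Om Ω)) (map (cst Ω) G) = map (algebraMap 𝕂 (Om Ω)) (map φ H) := by
    rw [hG, map_map, map_map, map_map]
    congr 1
  have hGm : ∀ m, map (σ m) (map (algebraMap F (M m)) H) = G := by
    intro m
    rw [hG, map_map]
    have h1 : (σ m).comp (algebraMap F (M m)) = algebraMap F Ω := RingHom.ext (hσ m)
    rw [h1]
  -- the limit point
  obtain ⟨z, hz⟩ : ∃ z : Fin (3 + 1) → Om Ω, z = fun l => Om.mk fun m => σ m (x m l) := ⟨_, rfl⟩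
  have hzl0 : z l0 = 1 := by
    rw [hz]
    simp only [hx, map_one]
    rfl
  have hz0 : z ≠ 0 := by
    intro h0
    have h1 := congrFun h0 l0
    rw [hzl0] at h1
    exact one_ne_zero h1
  have hevG : ∀ m (p : MvPolynomial (Fin (3 + 1)) (M m)),
      eval (fun l => σ m (x m l)) (map (σ m) p) = σ m (eval (x m) p) := fun m p =>
    eval_hom (σ m) p (x m)
  obtain ⟨j, hj⟩ := smooth_map ((cst Ω).comp (algebraMap F Ω)) hnull z hz0
  have hj1 : eval z (pderiv j (map (cst Ω) G)) ≠ 0 := by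
    rw [hG, map_map]
    exact hj
  have hj' : ∀ᶠ m in (hyperfilter ℕ : Filter ℕ),
      eval (x m) (pderiv j (map (algebraMap F (M m)) H)) ≠ 0 := by
    rw [pderiv_map, hz, eval_cst (fun m l => σ m (x m l))] at hj1
    rw [Ultrafilter.eventually_not]
    intro h0
    apply hj1
    refine Om.mk_eq.2 ?_
    filter_upwards [h0] with m hm
    rw [← hGm m, pderiv_map, hevG, hm, map_zero]
  have hmon : ∀ I J : Fin (3 + 1) →₀ ℕ, (monomial I 1 + monomial J 1 :
      MvPolynomial (Fin (3 + 1)) (Om Ω)) = map (cst Ω) (monomial I 1 + monomial J 1) := by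
    intro I J
    rw [map_add, MvPolynomial.map_monomial, MvPolynomial.map_monomial, (cst Ω).map_one]
  have hmonm : ∀ m, ∀ I J : Fin (3 + 1) →₀ ℕ, (monomial I 1 + monomial J 1 :
      MvPolynomial (Fin (3 + 1)) Ω) = map (σ m) (monomial I 1 + monomial J 1) := by
    intro m I J
    rw [map_add, MvPolynomial.map_monomial, MvPolynomial.map_monomial, (σ m).map_one]
  have hDjm : ∀ m, ∀ I J : Fin (3 + 1) →₀ ℕ, ∀ a b c,
      Dj D (fun l => σ m (x m l)) j (monomial I 1 + monomial J 1) a b c =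
        σ m (Dj (D' m) (x m) j (monomial I 1 + monomial J 1) a b c) := by
    intro m I J a b c
    rw [hmonm m, Dj_hom (hD m)]
  have hDj : ∀ I J : Fin (3 + 1) →₀ ℕ, ∀ a b c,
      Dj (fun I => hat (D I)) z j (monomial I 1 + monomial J 1) a b c =
        Om.mk fun m => σ m (Dj (D' m) (x m) j (monomial I 1 + monomial J 1) a b c) := by
    intro I J a b c
    rw [hmon, hz, Dj_mk D (fun m l => σ m (x m l))]
    congr 1
    funext m
    exact hDjm m I J a b c
  have hCS : ∀ m, ∀ I J : Fin (3 + 1) →₀ ℕ, I.degree = 4 → J.degree = 4 →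
      (monomial I 1 + monomial J 1 : MvPolynomial (Fin (3 + 1)) (M m)) ∈ CS κ (M m) 3 4 :=
    fun m I J hI hJ => add_mem (monomial_mem_CS hI) (monomial_mem_CS hJ)
  have hfd := finite_deg 3 4
  have key := level (RingHom.id (Om Ω)) hFF (hH.map φ)
    (fun p => (hgen.map φ).no_lines (hH.map φ) p)
    (fun ψ hψ => (hgen.map φ).no_conics (hH.map φ) ψ hψ) (fun p hp => smooth_map φ hnull p hp)
    (D := fun I => hat (D I)) (x := z) (l0 := l0) hzl0 (by
      rw [hz, eval_cst (fun m l => σ m (x m l))]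
      have h1 : ∀ m, eval (fun l => σ m (x m l)) G = 0 := by
        intro m
        rw [← hGm m, hevG, hxF, map_zero]
      simp only [h1]
      rfl) (fun pq => by
      choose a ha using fun m => (hR m).1 pq
      refine ⟨Om.mk fun m => σ m (a m), ?_⟩
      funext l
      rw [hz, wv_mk G D (fun m l => σ m (x m l)), Pi.smul_apply, smul_eq_mul, Om.mk_mul]
      congr 1
      funext m
      rw [← hGm m, wv_hom (hD m), ha, Pi.smul_apply, smul_eq_mul, map_mul]) (j := j) hj1 (by
      by_contra hcon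
      push Not at hcon
      have h1 : ∀ t : {I : Fin (3 + 1) →₀ ℕ // I.degree = 4} ×
          {I : Fin (3 + 1) →₀ ℕ // I.degree = 4} × Fin (3 + 1) × Fin (3 + 1) × Fin (3 + 1),
          ∀ᶠ m in (hyperfilter ℕ : Filter ℕ),
          Dj (D' m) (x m) j (monomial t.1.1 1 + monomial t.2.1.1 1) t.2.2.1 t.2.2.2.1 t.2.2.2.2
            = 0 := by
        rintro ⟨I, J, a, b, c⟩
        have h2 := hcon I.1 J.1 I.2 J.2 a b c
        rw [hDj] at h2
        have h3 := Om.mk_eq.1 (h2.trans Om.mk_zero.symm)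
        filter_upwards [h3] with m hm
        exact (map_eq_zero (σ m)).1 hm
      obtain ⟨m, h2, h3⟩ := ((eventually_all.2 h1).and hj').exists
      obtain ⟨-, R, hRR, a, b, c, hne⟩ := hR m
      exact hne j h3 (Dj_zero (fun I J hI hJ a b c => h2 (⟨I, hI⟩, ⟨J, hJ⟩, a, b, c)) hRR.1 a b c))
    (fun I J I' J' hI hJ hI' hJ' a b c a' b' c' hne => by
      rw [hDj] at hne
      rw [hDj, hDj, Om.mk_div]
      have h1 : ∀ᶠ m in (hyperfilter ℕ : Filter ℕ),
          Dj (D' m) (x m) j (monomial I' 1 + monomial J' 1) a' b' c' ≠ 0 := by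
        rw [Ultrafilter.eventually_not]
        intro h0
        apply hne
        refine Om.mk_eq.2 ?_
        filter_upwards [h0] with m hm
        rw [hm, map_zero]
      have h2 : (Om.mk fun m => σ m (Dj (D' m) (x m) j (monomial I 1 + monomial J 1) a b c) /
          σ m (Dj (D' m) (x m) j (monomial I' 1 + monomial J' 1) a' b' c')) =
          Om.mk fun m => σ m (Dj (D' m) (x m) j (monomial I 1 + monomial J 1) a b c /
            Dj (D' m) (x m) j (monomial I' 1 + monomial J' 1) a' b' c') := by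
        congr 1
        funext m
        rw [map_div₀]
      rw [h2]
      refine ⟨⟨_, hle (mem_BS_of_eventually (H := C) hs0 ?_)⟩, rfl⟩
      filter_upwards [hj', h1] with m h2 h3
      exact (ratio_Dj (hdat m) (hxF m) h2 (hCS m I J hI hJ) (hCS m I' J' hI' hJ') a b c a' b' c'
        h3).trans (hC m)) l
  obtain ⟨w, hw⟩ := key
  have h1 : z l ∈ 𝕂 := by
    have h2 : z l = (w : Om Ω) := hw.symm
    rw [h2]
    exact w.2
  have h2 := hint _ h1
  rw [hz] at h2
  exact bdd_of_integral h2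

end Pool.Agent.N752.QS
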